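import Pool.Agent.helper90.IV.Spec
import Pool.Agent.helper72.KS.TRK

/-!
# MP_26dbae_co: TK2, from a linked subdivision in the pair graph to two colour isomorphic copies
-/

set_option autoImplicit false

open scoped BigOperators

namespace Pool.Agent.helper84.IV

open Pool.Agent.helper23.TH Pool.Agent.KS Pool.Agent.IV

noncomputable section

open Classical

/-- the vertices of the copy `j`, before numbering -/
def lf {ρ ι : Type} {k : ℕ} (j : Fin k) : ρ ⊕ ι → ρ ⊕ (Fin k × ι)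
  | .inl x => .inl x
  | .inr x => .inr (j, x)

theorem mkR_two {ρ ι ε V K : Type} [Fintype ρ] [Fintype ι] [Fintype ε]
    (ed : ε → (ρ ⊕ ι) × (ρ ⊕ ι)) (hi : Function.Injective fun e => s((ed e).1, (ed e).2))
    (hl : ∀ e, (ed e).1 ≠ (ed e).2) (k : ℕ) (χ : V → V → K) (Φ : ρ ⊕ (Fin k × ι) → V × V)
    (h1 : ∀ a b, (Φ a).1 = (Φ b).1 → a = b) (h2 : ∀ a b, (Φ a).2 = (Φ b).2 → a = b)
    (h3 : ∀ a b, (Φ a).1 ≠ (Φ b).2)
    (h4 : ∀ (j : Fin k) (e : ε), χ (Φ (lf j (ed e).1)).1 (Φ (lf j (ed e).2)).1 =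
      χ (Φ (lf j (ed e).1)).2 (Φ (lf j (ed e).2)).2)
    (h5 : ∀ (j : Fin k) (e : ε), χ (Φ (lf j (ed e).2)).1 (Φ (lf j (ed e).1)).1 =
      χ (Φ (lf j (ed e).2)).2 (Φ (lf j (ed e).1)).2) :
    Two ((mkR ed hi hl).pw k) χ := by
  obtain ⟨D, hD1, hD2⟩ : ∃ D : Fin (Fintype.card ρ) ⊕ (Fin k × Fin (Fintype.card ι)) → ρ ⊕ (Fin k × ι),
      Function.Injective D ∧ ∀ (j : Fin k) (x : ρ ⊕ ι),
        D ((mkR ed hi hl).lift j (Sum.map (Fintype.equivFin ρ) (Fintype.equivFin ι) x)) = lf j x := by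
    refine ⟨fun a => Sum.map (Fintype.equivFin ρ).symm
      (Prod.map id (Fintype.equivFin ι).symm) a, ?_, ?_⟩
    · exact Sum.map_injective.2 ⟨(Fintype.equivFin ρ).symm.injective,
        Function.injective_id.prodMap (Fintype.equivFin ι).symm.injective⟩
    · intro j x
      rcases x with x | x
      · show Sum.inl ((Fintype.equivFin ρ).symm (Fintype.equivFin ρ x)) = Sum.inl x
        rw [Equiv.symm_apply_apply]
      · show Sum.inr (j, (Fintype.equivFin ι).symm (Fintype.equivFin ι x)) = Sum.inr (j, x)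
        rw [Equiv.symm_apply_apply]
  refine ⟨fun a => (Φ (D a)).1, fun a => (Φ (D a)).2, ?_, ?_, ?_, ?_⟩
  · intro a b hab
    exact hD1 (h1 _ _ hab)
  · intro a b hab
    exact hD1 (h2 _ _ hab)
  · intro a b
    exact h3 _ _
  · intro a b hab
    obtain ⟨j, i, ⟨ha, hb⟩ | ⟨hb, ha⟩⟩ := hab
    · have e1 : D a = lf j (ed ((Fintype.equivFin ε).symm i)).1 := by
        rw [ha]
        exact hD2 j _
      have e2 : D b = lf j (ed ((Fintype.equivFin ε).symm i)).2 := by
        rw [hb]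
        exact hD2 j _
      simp only [e1, e2]
      exact h4 _ _
    · have e1 : D a = lf j (ed ((Fintype.equivFin ε).symm i)).2 := by
        rw [ha]
        exact hD2 j _
      have e2 : D b = lf j (ed ((Fintype.equivFin ε).symm i)).1 := by
        rw [hb]
        exact hD2 j _
      simp only [e1, e2]
      exact h5 _ _

theorem TK2 : TK2_stmt := by
  intro I _ T hub k V K _ χ ω U h hk hub2 hL
  obtain ⟨z, y, c, m, a1, a2, a3, hco⟩ := hL
  obtain ⟨P, hP1, hP2, hP3, hP4, hPc⟩ : ∃ P : (T.R ⊕ Bool) ⊕ (Fin k × (I ⊕ T.Ed)) → {x // x ∈ U},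
      (∀ r, P (.inl (.inl r)) = y r) ∧ (∀ b, P (.inl (.inr b)) = m b) ∧
      (∀ j i, P (.inr (j, .inl i)) = z j i) ∧ (∀ j e, P (.inr (j, .inr e)) = c j e) ∧
      ∀ a b, a ≠ b → ¬ Co (fun u : {x // x ∈ U} => u.1.1) (fun u => u.1.2) (P a) (P b) := by
    refine ⟨fun a => Sum.elim (Sum.elim y m)
      (fun b : Fin k × (I ⊕ T.Ed) => Sum.elim (fun i => z b.1 i) (fun e => c b.1 e) b.2) a,
      fun _ => rfl, fun _ => rfl, fun _ _ => rfl, fun _ _ => rfl, ?_⟩
    intro a b hab
    rcases a with (r | b1) | ⟨j, i | e⟩ <;> rcases b with (r' | b1') | ⟨j', i' | e'⟩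
    · exact hco (.inl (.inr r)) (.inl (.inr r')) (by simpa using hab)
    · exact hco (.inl (.inr r)) (.inr (.inr b1')) (by simp)
    · exact hco (.inl (.inr r)) (.inl (.inl (j', i'))) (by simp)
    · exact hco (.inl (.inr r)) (.inr (.inl (j', e'))) (by simp)
    · exact hco (.inr (.inr b1)) (.inl (.inr r')) (by simp)
    · exact hco (.inr (.inr b1)) (.inr (.inr b1')) (by simpa using hab)
    · exact hco (.inr (.inr b1)) (.inl (.inl (j', i'))) (by simp)
    · exact hco (.inr (.inr b1)) (.inr (.inl (j', e'))) (by simp)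
    · exact hco (.inl (.inl (j, i))) (.inl (.inr r')) (by simp)
    · exact hco (.inl (.inl (j, i))) (.inr (.inr b1')) (by simp)
    · exact hco (.inl (.inl (j, i))) (.inl (.inl (j', i'))) (by simpa using hab)
    · exact hco (.inl (.inl (j, i))) (.inr (.inl (j', e'))) (by simp)
    · exact hco (.inr (.inl (j, e))) (.inl (.inr r')) (by simp)
    · exact hco (.inr (.inl (j, e))) (.inr (.inr b1')) (by simp)
    · exact hco (.inr (.inl (j, e))) (.inl (.inl (j', i'))) (by simp)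
    · exact hco (.inr (.inl (j, e))) (.inr (.inl (j', e'))) (by simpa using hab)
  have hedge : ∀ (j : Fin k) (e : (T.Ed ⊕ T.Ed) ⊕ I),
      Gb χ ω (P (lf j (lsEd T hub e).1)).1 (P (lf j (lsEd T hub e).2)).1 := by
    intro j e
    rcases e with ((e | r) | (e | r)) | i
    · simp only [lsEd, lf, hP3, hP4]
      exact (a1 j e).1
    · simp only [lsEd, lf, hP3, hP4]
      exact (a2 j r).1
    · simp only [lsEd, lf, hP3, hP4]
      exact (a1 j e).2
    · simp only [lsEd, lf, hP1, hP4]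
      exact (a2 j r).2
    · simp only [lsEd, lf, hP2, hP3]
      exact a3 j i
  have hω : ∀ a, ω (P a).1.1 = true ∧ ω (P a).1.2 = false := by
    intro a
    rcases a with (r | b1) | ⟨j, i | e⟩
    · rw [hP1]
      have := (a2 ⟨0, hk⟩ r).2
      exact ⟨this.2.1, this.2.2.2.1⟩
    · rw [hP2]
      obtain ⟨i, hi⟩ := hub2 b1
      have := a3 ⟨0, hk⟩ i
      rw [hi] at this
      exact ⟨this.2.1, this.2.2.2.1⟩
    · rw [hP3]
      have := a3 j i
      exact ⟨this.2.2.1, this.2.2.2.2⟩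
    · rw [hP4]
      rcases e with e | r
      · have := (a1 j e).1
        exact ⟨this.2.2.1, this.2.2.2.2⟩
      · have := (a2 j r).1
        exact ⟨this.2.2.1, this.2.2.2.2⟩
  refine mkR_two (lsEd T hub) (lsEd_inj T hub) (lsEd_ll T hub) k χ (fun a => (P a).1) ?_ ?_ ?_ ?_ ?_
  · intro a b hab
    by_contra hne
    exact hPc a b hne (Or.inl hab)
  · intro a b hab
    by_contra hne
    exact hPc a b hne (Or.inr hab)
  · intro a b hab
    have e1 := (hω a).1
    have e2 := (hω b).2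
    rw [hab, e2] at e1
    exact absurd e1 (by decide)
  · intro j e
    exact (hedge j e).1.2.2.2.2.2.2
  · intro j e
    exact (TRK_symm χ ω h _ _ (hedge j e)).1.2.2.2.2.2.2

end

end Pool.Agent.helper84.IV
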